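import Mathlib

namespace Pool.Agent.MP_352b69_co

/-- `lab u v` is the finite set of time labels of the edge from `u` to `v` (empty: no edge).
`Reach lab u v`: `u ≠ v` and there is a non-strict temporal path from `u` to `v`, that is
distinct vertices `x 0 = u, …, x k = v` and times `t 0 ≤ … ≤ t (k-1)` with `t i` a label of the
edge from `x i` to `x (i+1)`. -/
def Reach {V : Type} (lab : V → V → Finset ℕ) (u v : V) : Prop :=
  u ≠ v ∧ ∃ (k : ℕ) (x : Fin (k + 1) → V) (t : Fin k → ℕ),
    Function.Injective x ∧ x 0 = u ∧ x (Fin.last k) = v ∧ Monotone t ∧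
      ∀ i : Fin k, t i ∈ lab (x i.castSucc) (x i.succ)

end Pool.Agent.MP_352b69_co
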