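import Pool.Agent.MP_352b69_co.Defs

namespace Pool.Agent.MP_352b69_co

variable {V : Type} {lab : V → V → Finset ℕ}

lemma reach1 {u v : V} {s : ℕ} (h : u ≠ v) (h1 : s ∈ lab u v) : Reach lab u v := by
  refine ⟨h, 1, ![u, v], ![s], ?_, rfl, rfl, ?_, ?_⟩
  · intro i j hij
    fin_cases i <;> fin_cases j <;> simp_all
  · intro i j _
    fin_cases i; fin_cases j; simp
  · intro i
    fin_cases i; simpa using h1

lemma reach2 {u w v : V} {s t : ℕ} (h : u ≠ v) (hw : u ≠ w) (hv : w ≠ v) (h1 : s ∈ lab u w)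
    (h2 : t ∈ lab w v) (hst : s ≤ t) : Reach lab u v := by
  refine ⟨h, 2, ![u, w, v], ![s, t], ?_, rfl, rfl, ?_, ?_⟩
  · intro i j hij
    fin_cases i <;> fin_cases j <;> simp_all
  · intro i j hij
    fin_cases i <;> fin_cases j <;> simp_all
  · intro i
    fin_cases i
    · simpa using h1
    · simpa using h2

lemma reach3 {u w z v : V} {s t r : ℕ} (h : u ≠ v) (hw : u ≠ w) (hz : u ≠ z) (hwz : w ≠ z)
    (hwv : w ≠ v) (hzv : z ≠ v) (h1 : s ∈ lab u w)
    (h2 : t ∈ lab w z) (h3 : r ∈ lab z v) (hst : s ≤ t) (htr : t ≤ r) : Reach lab u v := by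
  refine ⟨h, 3, ![u, w, z, v], ![s, t, r], ?_, rfl, rfl, ?_, ?_⟩
  · intro i j hij
    fin_cases i <;> fin_cases j <;> simp_all
  · intro i j hij
    have := hst.trans htr
    fin_cases i <;> fin_cases j <;> simp_all
  · intro i
    fin_cases i
    · simpa using h1
    · simpa using h2
    · simpa using h3

/-- the tail of a path with at least two edges -/
lemma reach_tail {k : ℕ} {x : Fin (k + 2 + 1) → V} {t : Fin (k + 2) → ℕ}
    (hx : Function.Injective x) (ht : Monotone t)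
    (h : ∀ i : Fin (k + 2), t i ∈ lab (x i.castSucc) (x i.succ)) :
    Reach lab (x 1) (x (Fin.last (k + 2))) := by
  refine ⟨fun e => ?_, k + 1, fun i => x i.succ, fun i => t i.succ,
    hx.comp (Fin.succ_injective _), rfl, rfl, ht.comp Fin.strictMono_succ.monotone, fun i => ?_⟩
  · have := hx e
    simp [Fin.ext_iff] at this
  · exact h i.succ

/-- If `w` is the only possible relay from `u` to `v`, the path is direct or goes through `w`. -/
lemma direct_or_via {u v w : V} (h : Reach lab u v)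
    (hw : ∀ z, Reach lab u z → Reach lab z v → z = w) :
    (∃ s, s ∈ lab u v) ∨ ∃ s t, s ∈ lab u w ∧ t ∈ lab w v ∧ s ≤ t := by
  obtain ⟨hne, k, x, t, hx, h0, hl, ht, hlab⟩ := h
  match k with
  | 0 => exact absurd (h0.symm.trans hl) hne
  | 1 =>
    left
    refine ⟨t 0, ?_⟩
    have := hlab 0
    rw [← h0, ← hl]
    exact this
  | 2 =>
    right
    have a0 : t 0 ∈ lab (x 0) (x 1) := hlab 0
    have a1 : t 1 ∈ lab (x 1) (x 2) := hlab 1
    have hl' : x 2 = v := hl
    have n01 : x 0 ≠ x 1 := fun e => by simpa using hx e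
    have n12 : x 1 ≠ x 2 := fun e => by simpa using hx e
    have : x 1 = w := hw _ (h0 ▸ reach1 n01 a0) (hl' ▸ reach1 n12 a1)
    exact ⟨t 0, t 1, h0 ▸ this ▸ a0, hl' ▸ this ▸ a1, ht (by decide)⟩
  | k + 3 =>
    exfalso
    have a0 : t 0 ∈ lab (x 0) (x 1) := hlab 0
    have a1 : t 1 ∈ lab (x 1) (x 2) := hlab 1
    have n01 : x 0 ≠ x 1 := fun e => by simpa [Fin.ext_iff] using hx e
    have m2 : 2 % (k + 3 + 1) = 2 := Nat.mod_eq_of_lt (by omega)
    have n02 : x 0 ≠ x 2 := fun e => by simpa [Fin.ext_iff, m2] using hx e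
    have n12 : x 1 ≠ x 2 := fun e => by simpa [Fin.ext_iff, m2] using hx e
    have r1 : Reach lab (x 1) v := hl ▸ reach_tail hx ht hlab
    have r2 : Reach lab (x 2) v := by
      have := reach_tail (k := k) (x := fun i => x i.succ) (t := fun i => t i.succ) (lab := lab)
        (hx.comp (Fin.succ_injective _)) (ht.comp Fin.strictMono_succ.monotone)
        (fun i => hlab i.succ)
      rw [← hl]
      exact this
    have e1 : x 1 = w := hw _ (h0 ▸ reach1 n01 a0) r1
    have e2 : x 2 = w := hw _ (h0 ▸ reach2 n02 n01 n12 a0 a1 (ht (by simp))) r2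
    exact n12 (e1.trans e2.symm)

/-- The key step: one class `{a, b}` between the helpers `h` (incoming) and `g` (outgoing). -/
lemma class_step {a b h g : V} (simple : ∀ u v, (lab u v).card ≤ 1)
    (nab : a ≠ b) (nha : h ≠ a) (nhb : h ≠ b) (nhg : h ≠ g) (nag : a ≠ g) (nbg : b ≠ g)
    (hag : (∃ s, s ∈ lab a g) ∨ ∃ s t, s ∈ lab a b ∧ t ∈ lab b g ∧ s ≤ t)
    (hbg : (∃ s, s ∈ lab b g) ∨ ∃ s t, s ∈ lab b a ∧ t ∈ lab a g ∧ s ≤ t)
    (hha : (∃ s, s ∈ lab h a) ∨ ∃ s t, s ∈ lab h b ∧ t ∈ lab b a ∧ s ≤ t)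
    (hhb : (∃ s, s ∈ lab h b) ∨ ∃ s t, s ∈ lab h a ∧ t ∈ lab a b ∧ s ≤ t)
    (hno : ¬ Reach lab h g) :
    ∃ p q, (p ∈ lab a g ∨ p ∈ lab b g) ∧ (q ∈ lab h a ∨ q ∈ lab h b) ∧ p < q := by
  have uniq : ∀ {u v s t}, s ∈ lab u v → t ∈ lab u v → s = t := fun hs ht =>
    Finset.card_le_one.1 (simple _ _) _ hs _ ht
  by_contra hc
  push Not at hc
  have na : ∀ p q, p ∈ lab a g → q ∈ lab h a → False := fun p q hp hq =>
    hno (reach2 nhg nha nag hq hp (hc p q (Or.inl hp) (Or.inl hq)))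
  have nb : ∀ p q, p ∈ lab b g → q ∈ lab h b → False := fun p q hp hq =>
    hno (reach2 nhg nhb nbg hq hp (hc p q (Or.inr hp) (Or.inr hq)))
  rcases hag with ⟨p, hp⟩ | ⟨s, p, hs, hp, hsp⟩
  · rcases hha with ⟨q, hq⟩ | ⟨q, t, hq, ht, hqt⟩
    · exact na p q hp hq
    · rcases hbg with ⟨p', hp'⟩ | ⟨s', p', hs', hp', hsp'⟩
      · exact nb p' q hp' hq
      · obtain rfl := uniq hs' ht
        exact hno (reach3 nhg nhb nha nab.symm nbg nag hq hs' hp' hqt hsp')
  · rcases hhb with ⟨q, hq⟩ | ⟨q, t, hq, ht, hqt⟩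
    · exact nb p q hp hq
    · obtain rfl := uniq hs ht
      exact hno (reach3 nhg nha nhb nab nag nbg hq hs hp hqt hsp)

/-- labels of the edge from `u` to `u + 1` -/
def cyc (u : Fin 9) : Finset ℕ := if u.val % 3 = 0 then {1, 4} else if u.val % 3 = 1 then {2} else {3}

/-- the nine-cycle -/
def G9 (u v : Fin 9) : Finset ℕ := if v = u + 1 then cyc u else if u = v + 1 then cyc v else ∅

lemma G9_symm : ∀ u v, G9 u v = G9 v u := by decide

lemma G9_loop : ∀ u, G9 u u = ∅ := by decide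

/-- one round of calls -/
def stepK (t : ℕ) (K : Fin 9 → Fin 9 → Bool) (u v : Fin 9) : Bool :=
  K u v || (decide (t ∈ G9 (v + 1) v) && K u (v + 1)) || (decide (t ∈ G9 (v - 1) v) && K u (v - 1))

/-- knowledge after round `t` -/
def know : ℕ → Fin 9 → Fin 9 → Bool
  | 0 => fun u v => decide (u = v)
  | t + 1 => stepK (t + 1) (know t)

lemma know_self (t : ℕ) (u : Fin 9) : know t u u = true := by
  induction t with
  | zero => simp [know]
  | succ t ih => simp [know, stepK, ih]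

lemma know_mono {s t : ℕ} (h : s ≤ t) {u v : Fin 9} (hk : know s u v = true) :
    know t u v = true := by
  induction h with
  | refl => exact hk
  | step _ ih => simp [know, stepK, ih]

lemma label_le : ∀ x y, ∀ t ∈ G9 x y, t ≤ 4 := by decide

lemma know_closed : ∀ x y, ∀ t ∈ G9 x y, ∀ u, know t u x = true → know t u y = true := by
  decide +kernel

lemma know_of_reach {u v : Fin 9} (h : Reach G9 u v) : know 4 u v = true := by
  obtain ⟨-, k, x, t, -, h0, hl, ht, hlab⟩ := h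
  have key : ∀ j : Fin (k + 1), ∀ T, (∀ i : Fin k, i.val < j.val → t i ≤ T) →
      know T u (x j) = true := by
    intro j
    induction j using Fin.induction with
    | zero => intro T _; rw [h0]; exact know_self T u
    | succ j ih =>
      intro T hT
      have h1 := ih (t j) (fun i hi => ht (by simp at hi; exact Fin.le_def.2 hi.le))
      exact know_mono (hT j (by simp)) (know_closed _ _ _ (hlab j) u h1)
  rw [← hl]
  exact key _ 4 fun i _ => label_le _ _ _ (hlab i)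

lemma reach_comap {W : Type} (e : V ≃ W) (H : W → W → Finset ℕ) (u v : V) :
    Reach (fun a b => H (e a) (e b)) u v ↔ Reach H (e u) (e v) := by
  constructor
  · rintro ⟨hne, k, x, t, hx, h0, hl, ht, hlab⟩
    exact ⟨fun h => hne (e.injective h), k, fun i => e (x i), t, e.injective.comp hx,
      by simp [h0], by simp [hl], ht, hlab⟩
  · rintro ⟨hne, k, x, t, hx, h0, hl, ht, hlab⟩
    exact ⟨fun h => hne (congrArg e h), k, fun i => e.symm (x i), t, e.symm.injective.comp hx,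
      by simp [h0], by simp [hl], ht, by simpa using hlab⟩

lemma relay_unique : ∀ a : Fin 9, a.val % 3 = 0 → ∀ z : Fin 9,
    (z ≠ a → z ≠ a - 1 → know 4 a z = true → know 4 z (a - 1) = true → z = a + 1) ∧
    (z ≠ a + 1 → z ≠ a - 1 → know 4 (a + 1) z = true → know 4 z (a - 1) = true → z = a) ∧
    (z ≠ a + 2 → z ≠ a → know 4 (a + 2) z = true → know 4 z a = true → z = a + 1) ∧
    (z ≠ a + 2 → z ≠ a + 1 → know 4 (a + 2) z = true → know 4 z (a + 1) = true → z = a) := by
  intro a ha z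
  refine ⟨?_, ?_, ?_, ?_⟩ <;> revert a z <;> decide +kernel

lemma facts : ∀ a : Fin 9, a.val % 3 = 0 →
    (a ≠ a + 1 ∧ a + 2 ≠ a ∧ a + 2 ≠ a + 1 ∧ a + 2 ≠ a - 1 ∧ a ≠ a - 1 ∧ a + 1 ≠ a - 1) ∧
    (1 ∈ G9 (a + 1) a ∧ 4 ∈ G9 (a + 1) a ∧ 3 ∈ G9 a (a - 1) ∧ 2 ∈ G9 (a + 2) (a + 1)) ∧
    know 4 (a + 2) (a - 1) = false := by
  decide +kernel

theorem no_simple (H : Fin 9 → Fin 9 → Finset ℕ) (simple : ∀ u v, (H u v).card ≤ 1)
    (hR : ∀ u v, Reach G9 u v ↔ Reach H u v) : False := by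
  have kn : ∀ {u v}, Reach H u v → know 4 u v = true := fun h => know_of_reach ((hR _ _).2 h)
  have cls : ∀ a : Fin 9, a.val % 3 = 0 → ∃ p q, (p ∈ H a (a - 1) ∨ p ∈ H (a + 1) (a - 1)) ∧
      (q ∈ H (a + 2) a ∨ q ∈ H (a + 2) (a + 1)) ∧ p < q := by
    intro a ha
    obtain ⟨⟨n1, n2, n3, n4, n5, n6⟩, ⟨l1, l4, l3, l2⟩, hno⟩ := facts a ha
    refine class_step simple n1 n2 n3 n4 n5 n6 ?_ ?_ ?_ ?_ fun h => by simp [kn h] at hno
    · exact direct_or_via ((hR _ _).1 (reach1 n5 l3)) fun z h1 h2 =>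
        (relay_unique a ha z).1 h1.1.symm h2.1 (kn h1) (kn h2)
    · exact direct_or_via ((hR _ _).1 (reach2 n6 n1.symm n5 l1 l3 (by norm_num))) fun z h1 h2 =>
        (relay_unique a ha z).2.1 h1.1.symm h2.1 (kn h1) (kn h2)
    · exact direct_or_via ((hR _ _).1 (reach2 n2 n3 n1.symm l2 l4 (by norm_num))) fun z h1 h2 =>
        (relay_unique a ha z).2.2.1 h1.1.symm h2.1 (kn h1) (kn h2)
    · exact direct_or_via ((hR _ _).1 (reach1 n3 l2)) fun z h1 h2 =>
        (relay_unique a ha z).2.2.2 h1.1.symm h2.1 (kn h1) (kn h2)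
  have link : ∀ {x h y : Fin 9} {p q : ℕ}, x ≠ y → x ≠ h → h ≠ y → know 4 x y = false →
      p ∈ H x h → q ∈ H h y → q < p := by
    intro x h y p q n1 n2 n3 hk hp hq
    by_contra hc
    have := kn (reach2 n1 n2 n3 hp hq (not_lt.1 hc))
    simp [this] at hk
  obtain ⟨p0, q0, hp0, hq0, h0⟩ := cls 0 rfl
  obtain ⟨p1, q1, hp1, hq1, h1⟩ := cls 3 rfl
  obtain ⟨p2, q2, hp2, hq2, h2⟩ := cls 6 rfl
  have l01 : q0 < p1 := by
    rcases hp1 with hp | hp <;> rcases hq0 with hq | hq <;>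
      exact link (by decide) (by decide) (by decide) (by decide +kernel) hp hq
  have l12 : q1 < p2 := by
    rcases hp2 with hp | hp <;> rcases hq1 with hq | hq <;>
      exact link (by decide) (by decide) (by decide) (by decide +kernel) hp hq
  have l20 : q2 < p0 := by
    rcases hp0 with hp | hp <;> rcases hq2 with hq | hq <;>
      exact link (by decide) (by decide) (by decide) (by decide +kernel) hp hq
  omega

end Pool.Agent.MP_352b69_co
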